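import Pool.Agent.R562.PR.Adv

set_option autoImplicit false

/-!
# Most short advice strings give primitive roots modulo ALL primes with `n` digits

Let `D ≥ 1` and `B` be given and `m(n) = 2 n (⌊n / (D ⌊log₂ n⌋)⌋ + 1)`, that is, about
`(2 / D) n² / log₂ n`. There is a polynomial-time algorithm which computes from a prime `p` and a
bit string `w` a list `F p w` of `(size p) ^ C` numbers such that for all large `n` all but a
fraction `2 ^ (-n)` of the bit strings `w` of length `m(n)` are good for ALL primes `p` with `n`
binary digits at the same time: all but a fraction `n ^ (-B)` of the entries of `F p w` are primitive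
roots modulo `p`.

So with `o(n²)` bits of advice which depend only on the number of digits `n`, and which may be chosen
at random, primitive roots modulo every prime are found in polynomial time with `O(log n)` random
bits; no factor of `p - 1` is known or tested, and no string has to be verified.

Proof. `w` is cut into `t` numbers `u_j < 4 ^ n`, and the list consists of the numbers
`u_j, …, u_j + k - 1`, `k = n ^ (3 D + 3)`. The second moment of short character sums shows that all
of them are `l`-th power residues modulo `p` for at most a proportion `(8 / k) ^ t` of the strings.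
As `(8 / k) ^ t ≤ 8 ^ (-n)`, this is so small that all `l ∣ p - 1` and all primes `p < 2 ^ n` can be
excluded at the same time.
-/

namespace Pool.Agent.Results.MP_18a8a6_lc.MostAdviceStrings

open Finset

/-- `F` is computable in polynomial time: some function on bit strings computed by a Turing machine
(Mathlib's `TM2ComputableInPolyTime`) in polynomially many steps sends the pair (coded as a bit
string) of the binary digits of `p` and of the bit string `w` to the code of the list `F p w`. -/
def PolyTimeListAdv (F : ℕ → List Bool → List ℕ) : Prop :=
  ∃ f : List Bool → List Bool, NPC.PolyTime f ∧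
    ∀ (p : ℕ) (w : List Bool), f (NPC.pairBits (Nat.bits p) w) = NPC.bits (F p w)

/-- `g` is a primitive root modulo `p` -/
def IsPrimRoot (p g : ℕ) : Prop := orderOf (g : ZMod p) = p - 1

open Classical in
/-- all but a fraction `(size p) ^ (-B)` of the entries of the list `s` are primitive roots
modulo `p` -/
def MostlyPrimRoots (B p : ℕ) (s : List ℕ) : Prop :=
  p.size ^ B * #{i ∈ range s.length | ¬ IsPrimRoot p (s.getD i 0)} ≤ s.length

/-- the advice string `w` is good for all primes with `n` binary digits -/
def Good (F : ℕ → List Bool → List ℕ) (B n : ℕ) (w : List Bool) : Prop :=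
  ∀ p : ℕ, p.Prime → p.size = n → MostlyPrimRoots B p (F p w)

/-- the length of the advice: `2 n (⌊n / (D ⌊log₂ n⌋)⌋ + 1)` -/
def adviceLength (D n : ℕ) : ℕ := (n / (D * Nat.log 2 n) + 1) * (2 * n)

open Classical in
theorem result (D B : ℕ) (hD : 1 ≤ D) :
    ∃ (C : ℕ) (F : ℕ → List Bool → List ℕ), PolyTimeListAdv F ∧
      (∀ (p : ℕ) (w : List Bool), (F p w).length = p.size ^ C) ∧
      ∃ n₀ : ℕ, ∀ n : ℕ, n₀ ≤ n →
        2 ^ n * #{w : Fin (adviceLength D n) → Bool | ¬ Good F B n (List.ofFn w)} ≤
          2 ^ adviceLength D n := by
  obtain ⟨C, F, h1, h2, n₀, h3⟩ := R562.PR.universal_advice D B hD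
  refine ⟨C, F, h1, h2, n₀, fun n hn => le_trans (Nat.mul_le_mul_left _ (card_le_card ?_))
    (h3 n hn)⟩
  intro w hw
  have hw' := (mem_filter.1 hw).2
  refine mem_filter.2 ⟨mem_univ _, ?_⟩
  unfold Good at hw'
  push Not at hw'
  obtain ⟨p, hp1, hp2, hp3⟩ := hw'
  exact ⟨p, hp1, hp2, hp3⟩

end Pool.Agent.Results.MP_18a8a6_lc.MostAdviceStrings
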