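import Pool.Agent.R562.PR.Non

set_option autoImplicit false

/-!
# Primitive roots, generating sets and power nonresidues: a deterministic equivalence

Let `ε > 0`. All lists are computed deterministically in polynomial time from the prime `p`; the
factorisation of `p - 1` is not given.

* **Part 1 (prime by prime).** For every polynomial-time list `S p` there is a polynomial-time list
  `F p` such that for every large prime `p` for which `S p` contains an `l`-th power nonresidue for
  every prime `l < p ^ ε` which divides `p - 1`, all but a fraction `(size p) ^ (-B)` of the entries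
  of `F p` are primitive roots modulo `p`. Nothing is required for the prime factors `l ≥ p ^ ε`,
  and it need not be known which entry of `S p` belongs to which `l`.
* **Part 2.** For every polynomial-time list `S p` there is a polynomial-time list almost all of
  whose entries generate, for every large prime `p`, the group generated by all of `S p`.
* **Part 3.** So the following are equivalent: some polynomial-time list contains a primitive root
  for all large primes; for every `B` there is a polynomial-time list all but a fraction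
  `(size p) ^ (-B)` of whose entries are primitive roots (a primitive root is found with
  `O(log log p)` random bits and error `(log p) ^ (-B)`); some polynomial-time list generates
  `(ℤ/p)ˣ`; some polynomial-time list contains `l`-th power nonresidues for all primes
  `l < p ^ ε`, `l ∣ p - 1`.

Proof. The numbers `1, …, (log p) ^ A` generate a group with at least `p ^ (1 - ε)` elements, so
together with `S p` they generate everything. The elements `∏ s_i ^ (a ^ i)`, `a < n ^ C`, of a
group generated by `s_0, s_1, …` are not `l`-th powers for all but few `a` if `l > n ^ C`, because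
a nonzero polynomial of small degree modulo `l` has few zeros; for `l ≤ n ^ C` an element of maximal
`l`-part is found by trial.
-/

namespace Pool.Agent.Results.MP_18a8a6_lc.NonresiduesSuffice

open Finset

/-- `F` is computable in polynomial time: some function on bit strings computed by a Turing machine
(Mathlib's `TM2ComputableInPolyTime`) in polynomially many steps sends the binary digits of `p` to
the code of the list `F p`. -/
def PolyTimeList (F : ℕ → List ℕ) : Prop :=
  ∃ f : List Bool → List Bool, NPC.PolyTime f ∧ ∀ p : ℕ, f (Nat.bits p) = NPC.bits (F p)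

/-- `g` is a primitive root modulo `p` -/
def IsPrimRoot (p g : ℕ) : Prop := orderOf (g : ZMod p) = p - 1

/-- the subgroup of `(ℤ/p)ˣ` generated by the entries of the list `s` which are prime to `p` -/
def listGroup (p : ℕ) (s : List ℕ) : Subgroup (ZMod p)ˣ :=
  Subgroup.closure {u | ∃ x ∈ s, (u : ZMod p) = (x : ZMod p)}

/-- the residue class of the number `g` modulo `p` generates the subgroup `Γ` -/
def Generates (p : ℕ) (Γ : Subgroup (ZMod p)ˣ) (g : ℕ) : Prop :=
  ∃ u : (ZMod p)ˣ, (u : ZMod p) = (g : ZMod p) ∧ Subgroup.zpowers u = Γ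

/-- the list `s` contains an `l`-th power nonresidue modulo `p` (for `l ∣ p - 1`) -/
def HasNonresidue (p l : ℕ) (s : List ℕ) : Prop :=
  ∃ x ∈ s, (x : ZMod p) ≠ 0 ∧ (x : ZMod p) ^ ((p - 1) / l) ≠ 1

open Classical in
/-- all but a fraction `(size p) ^ (-B)` of the entries of the list `s` have the property `P` -/
def Mostly (P : ℕ → Prop) (B p : ℕ) (s : List ℕ) : Prop :=
  p.size ^ B * #{i ∈ range s.length | ¬ P (s.getD i 0)} ≤ s.length

/-- some statement holds for all large primes -/
def LargePrimes (P : ℕ → Prop) : Prop := ∃ p₀ : ℕ, ∀ p : ℕ, p₀ ≤ p → p.Prime → P p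

theorem result (ε : ℝ) (hε : 0 < ε) :
    -- Part 1
    (∀ (B : ℕ) (S : ℕ → List ℕ), PolyTimeList S →
      ∃ (C : ℕ) (F : ℕ → List ℕ), PolyTimeList F ∧ (∀ p : ℕ, (F p).length = p.size ^ C) ∧
        LargePrimes fun p =>
          (∀ l : ℕ, l.Prime → l ∣ p - 1 → (l : ℝ) < (p : ℝ) ^ ε → HasNonresidue p l (S p)) →
            Mostly (IsPrimRoot p) B p (F p)) ∧
    -- Part 2
    (∀ (B : ℕ) (S : ℕ → List ℕ), PolyTimeList S →
      ∃ (C : ℕ) (F : ℕ → List ℕ), PolyTimeList F ∧ (∀ p : ℕ, (F p).length = p.size ^ C) ∧
        LargePrimes fun p => Mostly (Generates p (listGroup p (S p))) B p (F p)) ∧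
    -- Part 3
    List.TFAE [
      ∃ F : ℕ → List ℕ, PolyTimeList F ∧ LargePrimes fun p => ∃ g ∈ F p, IsPrimRoot p g,
      ∀ B : ℕ, ∃ (C : ℕ) (F : ℕ → List ℕ), PolyTimeList F ∧ (∀ p : ℕ, (F p).length = p.size ^ C) ∧
        LargePrimes fun p => Mostly (IsPrimRoot p) B p (F p),
      ∃ F : ℕ → List ℕ, PolyTimeList F ∧ LargePrimes fun p => listGroup p (F p) = ⊤,
      ∃ F : ℕ → List ℕ, PolyTimeList F ∧ LargePrimes fun p =>
        ∀ l : ℕ, l.Prime → l ∣ p - 1 → (l : ℝ) < (p : ℝ) ^ ε → HasNonresidue p l (F p)] := by
  classical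
  refine ⟨fun B S hS => ?_, fun B S hS => ?_, ?_⟩
  · obtain ⟨C, F, h1, h2, p₀, h3⟩ := R562.PR.nonresidues_suffice ε hε B hS
    exact ⟨C, F, h1, h2, p₀, h3⟩
  · obtain ⟨C, F, h1, h2, p₀, h3⟩ := R562.PR.generate_same B hS
    exact ⟨C, F, h1, h2, p₀, h3⟩
  · tfae_have 4 → 2 := by
      rintro ⟨S, hS, p₁, hp₁⟩ B
      obtain ⟨C, F, h1, h2, p₀, h3⟩ := R562.PR.nonresidues_suffice ε hε B hS
      exact ⟨C, F, h1, h2, max p₀ p₁, fun p hp hpp =>
        h3 p (le_of_max_le_left hp) hpp (hp₁ p (le_of_max_le_right hp) hpp)⟩
    tfae_have 2 → 1 := by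
      intro h
      obtain ⟨C, F, h1, h2, p₀, h3⟩ := h 1
      refine ⟨F, h1, p₀, fun p hp hpp => ?_⟩
      by_contra hcon
      push Not at hcon
      have h4 : p.size ^ 1 * #{i ∈ range (F p).length | ¬ IsPrimRoot p ((F p).getD i 0)} ≤
          (F p).length := h3 p hp hpp
      have hsz : 2 ≤ p.size := R562.PR.two_le_size hpp
      have hlen : 0 < (F p).length := by rw [h2]; positivity
      have h5 : #{i ∈ range (F p).length | ¬ IsPrimRoot p ((F p).getD i 0)} = (F p).length := by
        rw [filter_true_of_mem, card_range]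
        intro i hi
        rw [mem_range] at hi
        rw [List.getD_eq_getElem _ _ hi]
        exact hcon _ (List.getElem_mem _)
      rw [h5, pow_one] at h4
      have h6 : 2 * (F p).length ≤ p.size * (F p).length := Nat.mul_le_mul_right _ hsz
      omega
    tfae_have 1 → 3 := by
      rintro ⟨F, hF, p₀, hp₀⟩
      refine ⟨F, hF, p₀, fun p hp hpp => ?_⟩
      haveI : Fact p.Prime := ⟨hpp⟩
      obtain ⟨g, hg1, hg2⟩ := hp₀ p hp hpp
      exact R562.PR.top_of_mem hg1 hg2
    tfae_have 3 → 4 := by
      rintro ⟨F, hF, p₀, hp₀⟩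
      refine ⟨F, hF, p₀, fun p hp hpp l hl hd _ => ?_⟩
      haveI : Fact p.Prime := ⟨hpp⟩
      exact R562.PR.has_of_top (hp₀ p hp hpp) hl hd
    tfae_finish

end Pool.Agent.Results.MP_18a8a6_lc.NonresiduesSuffice
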