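import Pool.Agent.R562.PR.OneRes

set_option autoImplicit false

/-!
# Primitive roots modulo EVERY prime from one random residue

For every `B` there is a deterministic polynomial-time algorithm which computes from a prime `p`
(without the factorisation of `p - 1`) and a number `u` a list `F p u` of `(size p) ^ C` numbers
such that for EVERY large prime `p` and all but a fraction `(size p) ^ (-B)` of the residues
`u = 0, …, p - 1`, all but a fraction `(size p) ^ (-B)` of the entries of `F p u` are primitive
roots modulo `p`.

So `log₂ p + O(log log p)` random bits are enough to find a primitive root with error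
`(log p) ^ (-B)`, for every prime and without knowing or testing any factor of `p - 1`. (One random
residue is itself a primitive root only with probability `φ(p - 1) / (p - 1)`, which can be as
small as `c / log log p`; repeating and recognising the primitive roots needs more random bits and
the factorisation of `p - 1`.)

Proof. Let `k = (size p) ^ (B + 4)`. If the numbers `u, …, u + k - 1` do not generate `(ℤ/p)ˣ`, then
they are all `l`-th power residues (or `0`) for a prime `l ∣ p - 1`, so `|∑_{i<k} χ(u + i)| ≥ k - 1`
for a character `χ` modulo `p`. The elementary identity `∑_u χ(u + i) conj χ(u + j) = -1`, `i ≠ j`,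
shows that this happens for at most `4 p / k` residues `u`. A list of generators is turned into a
list of elements almost all of which are generators as in the starting results.
-/

namespace Pool.Agent.Results.MP_18a8a6_lc.OneRandomResidue

open Finset

/-- `F` is computable in polynomial time: some function on bit strings computed by a Turing machine
(Mathlib's `TM2ComputableInPolyTime`) in polynomially many steps sends the pair (coded as a bit
string) of the binary digits of `p` and of `u` to the code of the list `F p u`. -/
def PolyTimeList₂ (F : ℕ → ℕ → List ℕ) : Prop :=
  ∃ f : List Bool → List Bool, NPC.PolyTime f ∧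
    ∀ p u : ℕ, f (NPC.pairBits (Nat.bits p) (Nat.bits u)) = NPC.bits (F p u)

/-- `g` is a primitive root modulo `p` -/
def IsPrimRoot (p g : ℕ) : Prop := orderOf (g : ZMod p) = p - 1

open Classical in
/-- all but a fraction `(size p) ^ (-B)` of the entries of the list `s` are primitive roots
modulo `p` -/
def MostlyPrimRoots (B p : ℕ) (s : List ℕ) : Prop :=
  p.size ^ B * #{i ∈ range s.length | ¬ IsPrimRoot p (s.getD i 0)} ≤ s.length

open Classical in
theorem result (B : ℕ) :
    ∃ (C : ℕ) (F : ℕ → ℕ → List ℕ), PolyTimeList₂ F ∧
      (∀ p u : ℕ, (F p u).length = p.size ^ C) ∧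
      ∃ p₀ : ℕ, ∀ p : ℕ, p₀ ≤ p → p.Prime →
        p.size ^ B * #{u ∈ range p | ¬ MostlyPrimRoots B p (F p u)} ≤ p := by
  obtain ⟨C, F, h1, h2, p₀, h3⟩ := R562.PR.one_residue B
  refine ⟨C, F, h1, h2, p₀, fun p hp hpp => ?_⟩
  convert h3 p hp hpp using 2
  refine congrArg Finset.card (Finset.ext fun u => ?_)
  rw [mem_filter, mem_filter]
  exact Iff.rfl

end Pool.Agent.Results.MP_18a8a6_lc.OneRandomResidue
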