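import Pool.Agent.Results.MP_18a8a6_lc.WindowsAroundDilates
import Pool.Agent.R482.ST.Star

/-!
# Primitive roots modulo EVERY prime near powers, orbits and other sequences

Let `f_n`, `n = 0, 1, 2, …`, be positive functions on `(a, ∞)`, `a ≥ 0`, such that `f_n(t) / t` is nondecreasing, and such
that the sequence `f_n(t)` has exponent of convergence at most `τ` for each `t > a`: for instance `f_n(t) = t ^ (v_n)` for
exponents `v_n ≥ 1` (`τ = 0`; all powers, the powers `t ^ (3 ^ n)` of Mills, …), the orbits `f_n(t) = g (g (⋯ g (t)))` of any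
map `g` with `g(t) > t` and `g(t) / t` nondecreasing (`τ = 0`; for instance of `t² + c`), and `f_n(t) = v_n t`.
Let `θ < 1`. For every `ε > 0` and `B` one polynomial-time computable list `F p` works for ALL primes `p` with
`|p - f_n(α)| ≤ c f_n(α) ^ θ`, `n ≥ n₀(α, c)`, for all real `α > a` outside a set of Hausdorff dimension at most
`(ε + τ) / (1 - θ)`: all but a fraction `(size p) ^ (-B)` of its entries are primitive roots modulo `p`.
-/

set_option autoImplicit false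

namespace Pool.Agent.Results.MP_18a8a6_lc.StarshapedWindows

open Finset
open WindowsAroundDilates (PolyTimeList IsPrimRoot MostlyPrimRoots prim_of_gen)

/-- the functions `f n` are positive on `(a, ∞)`, `a ≥ 0`, and `f n x / x` is nondecreasing there -/
def Starshaped (a : ℝ) (f : ℕ → ℝ → ℝ) : Prop :=
  0 ≤ a ∧ ∀ n : ℕ, ∀ x y : ℝ, a < x → x ≤ y → 0 < f n x ∧ f n x / x ≤ f n y / y

/-- for each `x > a` the exponent of convergence of the sequence `f n x` is at most `τ` -/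
def ExpLe (a : ℝ) (f : ℕ → ℝ → ℝ) (τ : ℝ) : Prop :=
  ∀ x : ℝ, a < x → ∀ t : ℝ, τ < t → Summable (fun n : ℕ => (f n x) ^ (-t))

open Classical H595R2.PR Filter Topology in
theorem main (ε : ℝ) (hε : 0 < ε) (B : ℕ) :
    ∃ (C : ℕ) (F : ℕ → List ℕ), PolyTimeList F ∧ (∀ p : ℕ, (F p).length = p.size ^ C) ∧
      ∀ (a : ℝ) (f : ℕ → ℝ → ℝ) (τ θ : ℝ), Starshaped a f → 0 ≤ τ → ExpLe a f τ → θ < 1 →
        ∃ E : Set ℝ, dimH E ≤ ENNReal.ofReal ((ε + τ) / (1 - θ)) ∧ ∀ α : ℝ, a < α → α ∉ E → ∀ c : ℝ,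
          ∃ n₀ : ℕ, ∀ n : ℕ, n₀ ≤ n → ∀ p : ℕ, p.Prime → |(p : ℝ) - f n α| ≤ c * (f n α) ^ θ →
            MostlyPrimRoots F B p := by
  set ε' : ℝ := min ε (1 / 2) with hε'
  have hε0 : 0 < ε' := lt_min hε (by norm_num)
  obtain ⟨A, hA⟩ := H595R2.PR.Gam_top ε' hε0
  obtain ⟨x₁, hx₁⟩ := hA A le_rfl
  obtain ⟨p₀, hp₀⟩ := H595R2.PR.core A (A + B + 2)
  set F := H595R2.PR.cands A (A + B + 2) with hF
  have hlen : ∀ p : ℕ, (F p).length = p.size ^ (A + B + 2) := fun p => by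
    simp [hF, H595R2.PR.cands]
  have hmain : ∀ p : ℕ, p₀ ≤ p → p.Prime → H595R2.PR.Gam p (p.size ^ A) = ⊤ →
      MostlyPrimRoots F B p := by
    intro p hp hpp ht
    have h0 : #{i ∈ range (p.size ^ (A + B + 2)) | ¬ IsPrimRoot p ((F p).getD i 0)} ≤
        p.size ^ (A + 1) := by
      refine le_trans (card_le_card ?_) ((hp₀ p hp hpp).trans (by rw [pow_succ]))
      intro i hi
      obtain ⟨h1, h2⟩ := mem_filter.1 hi
      exact mem_filter.2 ⟨h1, fun hg => h2 (prim_of_gen hpp hg ht)⟩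
    unfold MostlyPrimRoots
    rw [hlen]
    calc p.size ^ B * _ ≤ p.size ^ B * p.size ^ (A + 1) := Nat.mul_le_mul_left _ h0
      _ = p.size ^ (A + B + 1) := by ring
      _ ≤ p.size ^ (A + B + 2) := Nat.pow_le_pow_right (Nat.size_pos.2 hpp.pos) (by omega)
  refine ⟨A + B + 2, F, H595R2.PR.polyTime_cands A (A + B + 2), hlen, ?_⟩
  intro a f τ θ hf hτ hvs hθ
  obtain ⟨E, hE, h⟩ := Pool.Agent.R482.ST.win_nat {p : ℕ | p.Prime ∧ ¬ MostlyPrimRoots F B p}
    (s := ε) (τ := τ) (θ := θ) hf hτ hvs hε.le hθ (by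
      intro δ hδ
      refine ⟨(x₁ : ℝ) + p₀ + 1, fun X hX => ?_⟩
      have hX1 : (1 : ℝ) ≤ X := by exact_mod_cast hX
      have hXp : (1 : ℝ) ≤ (X : ℝ) ^ (ε + δ) := Real.one_le_rpow hX1 (by positivity)
      have hsub : (Ioc 0 X).filter (fun t => t ∈ {p : ℕ | p.Prime ∧ ¬ MostlyPrimRoots F B p}) ⊆
          range p₀ ∪ (range (X + 1)).filter (fun p => p.Prime ∧
            H595R2.PR.Gam p (p.size ^ A) ≠ ⊤) := by
        intro p hp
        obtain ⟨h1, h2, h3⟩ := mem_filter.1 hp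
        rw [mem_union, mem_range]
        by_contra hc
        push Not at hc
        obtain ⟨h4, h5⟩ := hc
        have h6 : H595R2.PR.Gam p (p.size ^ A) = ⊤ := by
          by_contra h7
          exact h5 (mem_filter.2 ⟨mem_range.2 (by have := (mem_Ioc.1 h1).2; omega), h2, h7⟩)
        exact h3 (hmain p h4 h2 h6)
      have h9 := (card_le_card hsub).trans (card_union_le _ _)
      rw [card_range] at h9
      have h10 : (((Ioc 0 X).filter (fun t => t ∈ {p : ℕ | p.Prime ∧ ¬ MostlyPrimRoots F B p})).card : ℝ) ≤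
          p₀ + #((range (X + 1)).filter (fun p => p.Prime ∧
          H595R2.PR.Gam p (p.size ^ A) ≠ ⊤)) := by exact_mod_cast h9
      have h11 : (#((range (X + 1)).filter (fun p => p.Prime ∧
          H595R2.PR.Gam p (p.size ^ A) ≠ ⊤)) : ℝ) ≤ (x₁ : ℝ) + (X : ℝ) ^ (ε + δ) := by
        rcases le_total x₁ X with hx | hx
        · refine (hx₁ X hx).trans ?_
          have h12 : (X : ℝ) ^ ε' ≤ (X : ℝ) ^ (ε + δ) :=
            Real.rpow_le_rpow_of_exponent_le hX1 ((min_le_left _ _).trans (by linarith))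
          have h13 : (0 : ℝ) ≤ x₁ := by positivity
          linarith
        · have h12 : (#((range (X + 1)).filter (fun p => p.Prime ∧
              H595R2.PR.Gam p (p.size ^ A) ≠ ⊤)) : ℝ) ≤ X := by
            have h13 : (range (X + 1)).filter (fun p => p.Prime ∧
                H595R2.PR.Gam p (p.size ^ A) ≠ ⊤) ⊆ Ioc 0 X := by
              intro p hp
              obtain ⟨h1, h2, _⟩ := mem_filter.1 hp
              exact mem_Ioc.2 ⟨h2.pos, by have := mem_range.1 h1; omega⟩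
            have h14 := card_le_card h13
            rw [Nat.card_Ioc, Nat.sub_zero] at h14
            exact_mod_cast h14
          have h15 : (X : ℝ) ≤ x₁ := by exact_mod_cast hx
          linarith
      have h16 : (0 : ℝ) ≤ (x₁ : ℝ) + p₀ := by positivity
      have h17 : (0 : ℝ) ≤ ((x₁ : ℝ) + p₀) * ((X : ℝ) ^ (ε + δ) - 1) :=
        mul_nonneg h16 (by linarith)
      have h18 : (x₁ : ℝ) + p₀ + (X : ℝ) ^ (ε + δ) ≤ ((x₁ : ℝ) + p₀ + 1) * (X : ℝ) ^ (ε + δ) := by
        nlinarith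
      refine le_trans ?_ h18
      refine le_trans (le_of_eq ?_) (h10.trans (by linarith))
      congr!)
  refine ⟨E, hE, fun α hα hαE c => ?_⟩
  obtain ⟨n₀, hn⟩ := h α hα hαE c
  refine ⟨n₀, fun n hn1 p hp hpn => ?_⟩
  by_contra hcon
  exact (hn n hn1 p hpn).2 ⟨hp, hcon⟩

/-- **Theorem.** For every `ε > 0` and every `B` there are `C` and a polynomial-time computable list `F p` of `n ^ C` numbers,
`n` the number of binary digits of `p`, such that for all starshaped functions `f` on `(a, ∞)` of exponent of convergence at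
most `τ ≥ 0` and all `θ < 1`, the following holds for all real `α > a` outside a set of Hausdorff dimension at most
`(ε + τ) / (1 - θ)`: for each `c` there is `n₀` such that for all `n ≥ n₀` and EVERY prime `p` with
`|p - f_n(α)| ≤ c f_n(α) ^ θ`, all but a fraction `(size p) ^ (-B)` of the entries of `F p` are primitive roots modulo `p`.
The functions `v_n x`, `v_n > 0`, are starshaped on `(0, ∞)`, of exponent `τ` if `v` has exponent of convergence at most
`τ`; the functions `x ^ (v_n)`, `v_n ≥ 1`, are starshaped on `(1, ∞)`, of exponent `0` if the sums of `exp (-t v_n)` converge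
for `t > 0`; and the iterates of a map `g` with `g(x) > x` for `x > a` and `g(x) / x` nondecreasing are starshaped on
`(a, ∞)`, of exponent `0`. -/
theorem result :
    (∀ ε : ℝ, 0 < ε → ∀ B : ℕ, ∃ (C : ℕ) (F : ℕ → List ℕ), PolyTimeList F ∧ (∀ p : ℕ, (F p).length = p.size ^ C) ∧
      ∀ (a : ℝ) (f : ℕ → ℝ → ℝ) (τ θ : ℝ), Starshaped a f → 0 ≤ τ → ExpLe a f τ → θ < 1 →
        ∃ E : Set ℝ, dimH E ≤ ENNReal.ofReal ((ε + τ) / (1 - θ)) ∧ ∀ α : ℝ, a < α → α ∉ E → ∀ c : ℝ,
          ∃ n₀ : ℕ, ∀ n : ℕ, n₀ ≤ n → ∀ p : ℕ, p.Prime → |(p : ℝ) - f n α| ≤ c * (f n α) ^ θ →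
            MostlyPrimRoots F B p) ∧
    (∀ (v : ℕ → ℝ) (τ : ℝ), (∀ n, 0 < v n) → (∀ t : ℝ, τ < t → Summable (fun n : ℕ => (v n) ^ (-t))) →
      Starshaped 0 (fun n x => v n * x) ∧ ExpLe 0 (fun n x => v n * x) τ) ∧
    (∀ v : ℕ → ℝ, (∀ n, 1 ≤ v n) → (∀ t : ℝ, 0 < t → Summable fun n : ℕ => Real.exp (-(t * v n))) →
      Starshaped 1 (fun n x => x ^ (v n)) ∧ ExpLe 1 (fun n x => x ^ (v n)) 0) ∧
    (∀ (a : ℝ) (g : ℝ → ℝ), 0 ≤ a → (∀ x y : ℝ, a < x → x ≤ y → g x / x ≤ g y / y) → (∀ x : ℝ, a < x → x < g x) →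
      Starshaped a (fun n x => g^[n] x) ∧ ExpLe a (fun n x => g^[n] x) 0) :=
  ⟨main, Pool.Agent.R482.ST.ex_mul, Pool.Agent.R482.ST.ex_pow,
    Pool.Agent.R482.ST.ex_orbit⟩

end Pool.Agent.Results.MP_18a8a6_lc.StarshapedWindows
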